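import Pool.Agent.Q82.CK.Alg

/-!
# Chow-Kunneth decompositions and correspondences which are algebraic over the rational numbers

`𝒱` is a class of smooth projective (geometrically) irreducible varieties over the field `k` closed under
products (for example all of them), `C` the Chow groups with rational coefficients (in the form of their
formal properties, `IsChowProj`) and `H` a Weil cohomology theory (`IsWeilProj`).

A self-correspondence `Γ ∈ CH^d(X × X)`, `d = dim X`, is algebraic over `ℚ` if `F(Γ) = 0` in `CH^d(X × X)`
for some polynomial `F ≠ 0` with rational coefficients. We prove that the following are equivalent.

1. `X` has a Chow-Kunneth decomposition.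

2. There is **one** self-correspondence which acts on `H^i(X)` as multiplication by `i`, for all `i`, and is
   algebraic over `ℚ`.

3. There are a self-correspondence `Γ`, algebraic over `ℚ`, and pairwise coprime polynomials
   `P_0, …, P_{2d}` with rational coefficients such that `P_i(Γ)` acts as zero on `H^i(X)`.

4. There is a finite-dimensional algebra of self-correspondences of degree zero, modulo rational
   equivalence, which contains for all `i` an element acting on the cohomology as the projection
   onto `H^i(X)`.

In 2., 3., 4. nothing is required of the homologically trivial correspondences (they may even contain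
nonzero idempotents): 4. says that the lifts of the Kunneth projectors, which exist if the standard
conjecture of Kunneth type holds for `X`, can be chosen to generate a finite-dimensional algebra. In 3.
one may take for instance the graph of an endomorphism whose characteristic polynomials on the `H^i(X)`
are pairwise coprime, such as the Frobenius endomorphism if `k` is finite, or a polarised endomorphism.
-/

open CategoryTheory AlgebraicGeometry

set_option autoImplicit false

universe u v w

namespace Pool.Agent.Results.MP_638e8a_ag.AlgebraicCorrespondence

open Pool.Agent.H914 Pool.Agent.W492.BB Pool.Agent.TH133 Pool.Agent.Q82.CK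

/-- **Chow-Kunneth decompositions and algebraic correspondences.** -/
theorem result {k : Type u} [Field k] {𝒱 : VarClass k} (C : TheoryData.{u, v, 0} 𝒱 ℚ)
    [IsChowProj C] {K : Type w} [Field K] (H : WeilTheoryData.{u, v, w} C K) [IsWeilProj H]
    (X : 𝒱.Obj) :
    List.TFAE [
      ∃ π, IsCK H X π,
      ∃ Γ, IsDegreeOp H X Γ ∧ AlgebraicCor C Γ,
      ∃ Γ P, SeparatesDegrees H X Γ P ∧ AlgebraicCor C Γ,
      FiniteLift H X] :=
  ck_tfae

end Pool.Agent.Results.MP_638e8a_ag.AlgebraicCorrespondence
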