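import Pool.Agent.Q73.CR.LowDeg

/-!
# Chow-Kunneth decompositions from the cohomology below the middle
-/

set_option autoImplicit false

open CategoryTheory AlgebraicGeometry

universe u v w

namespace Pool.Agent.Results.MP_638e8a_ag.CohomologyBelowTheMiddle

open Pool.Agent.H914 Pool.Agent.W492.BB Pool.Agent.TH133 Pool.Agent.Q73.CR

/-- Let `X` be of dimension `d`. If for `1 ≤ i < d` the group `H^i(X)` is, via correspondences of
degrees `e i` and `- e i`, a direct factor of `H^(i + 2 e i)(Z i)`, where the Kunneth projector of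
`Z i` in this degree is algebraic and the homologically trivial self-correspondences of `Z i` are
nilpotent, then `X` has a Chow-Kunneth decomposition, and its member `h^i(X)`, `1 ≤ i < d`, is a
direct factor of the twisted Chow motive of `Z i`. -/
theorem result {k : Type u} [Field k] {𝒱 : VarClass k} (C : TheoryData.{u, v, 0} 𝒱 ℚ)
    [IsChowProj C] {K : Type w} [Field K] (H : WeilTheoryData.{u, v, w} C K) [IsWeilProj H]
    {X : 𝒱.Obj} {Z : ℕ → 𝒱.Obj} {e : ℕ → ℤ} {α : ∀ i, C.A (X.prod (Z i))}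
    {β : ∀ i, C.A ((Z i).prod X)} {κ : ∀ i, C.A ((Z i).prod (Z i))}
    (hZ : ∀ i, 1 ≤ i → i < X.dim → HomNilpotent H (Z i))
    (h : ∀ i, 1 ≤ i → i < X.dim → FactorInDegree H X (Z i) i (e i) (α i) (β i) (κ i)) :
    ∃ π : ℕ → C.A (X.prod X), IsCK H X π ∧ ∀ i, 1 ≤ i → i < X.dim →
      ∃ (a : C.A (X.prod (Z i))) (b : C.A ((Z i).prod X)), C.Deg ((X.dim : ℤ) + e i) a ∧
        C.Deg (((Z i).dim : ℤ) - e i) b ∧ π i = C.comp a b :=
  exists_ck_of_low hZ h

end Pool.Agent.Results.MP_638e8a_ag.CohomologyBelowTheMiddle
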