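import Pool.Agent.Q69.Cut.Retract

/-!
# Chow-Kunneth decompositions of dominated varieties

`𝒱` is a class of smooth projective geometrically irreducible varieties over the field `k` closed
under products (for example all of them), `C` the Chow groups with rational coefficients (in the
form of their formal properties, `IsChowProj`) and `H` a Weil cohomology theory (`IsWeilProj`).

It is not known whether a Chow-Kunneth decomposition of `Z` induces one of a variety `X` dominated by
`Z`, or more generally of a variety `X` such that `h(X)(-l)` is a direct factor of `h(Z)`, unless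
homologically trivial correspondences are nilpotent: the Kunneth projectors of `X` need not lift to
idempotents. We show that this is true if the decomposition `π` of `Z` does not raise weights:
`π_b ∘ g ∘ π_a = 0` for all `a < b` and all self-correspondences `g` of degree zero. Then `X` has a
Chow-Kunneth decomposition with the same property, which can be chosen to be self-dual. If moreover
`h(Z)` has no direct factor without cohomology, then all Chow-Kunneth decompositions of `X` have
this property.
-/

open CategoryTheory AlgebraicGeometry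

set_option autoImplicit false

universe u v w

namespace Pool.Agent.Results.MP_638e8a_ag.DominatedVarieties

open Pool.Agent.H914 Pool.Agent.W492.BB Pool.Agent.TH133 Pool.Agent.Q69.Cut

/-- Chow-Kunneth decompositions which do not raise weights pass to dominated varieties and to
twisted direct factors. -/
theorem result {k : Type u} [Field k] {𝒱 : VarClass k} (C : TheoryData.{u, v, 0} 𝒱 ℚ)
    [IsChowProj C] {K : Type w} [Field K] (H : WeilTheoryData.{u, v, w} C K) [IsWeilProj H] :
    (∀ (Z X : 𝒱.Obj) (f : Z ⟶ X), Dominant C f →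
      (∃ π : ℕ → C.A (Z.prod Z), IsCK H Z π ∧ NotRaising C Z π) →
      ∃ ρ : ℕ → C.A (X.prod X), IsCK H X ρ ∧ IsSelfDual C ρ ∧ NotRaising C X ρ) ∧
    (∀ (Z X : 𝒱.Obj) (l : ℕ), TwistedFactor C X Z l →
      (∃ π : ℕ → C.A (Z.prod Z), IsCK H Z π ∧ NotRaising C Z π) →
      (∃ ρ : ℕ → C.A (X.prod X), IsCK H X ρ ∧ IsSelfDual C ρ ∧ NotRaising C X ρ) ∧
      (NoPhantom H Z → ∀ ρ : ℕ → C.A (X.prod X), IsCK H X ρ → NotRaising C X ρ)) := by
  have key : ∀ (Z X : 𝒱.Obj) (l : ℕ), TwistedFactor C X Z l →
      (∃ π : ℕ → C.A (Z.prod Z), IsCK H Z π ∧ NotRaising C Z π) →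
      (∃ ρ : ℕ → C.A (X.prod X), IsCK H X ρ ∧ IsSelfDual C ρ ∧ NotRaising C X ρ) ∧
      (NoPhantom H Z → ∀ ρ : ℕ → C.A (X.prod X), IsCK H X ρ → NotRaising C X ρ) := by
    rintro Z X l hl ⟨π, h1, h2⟩
    obtain ⟨Q, hQ, hN⟩ := NR_of_retr (retr_of_factor hl) (P := π) h1 (of_notRaising h2)
    obtain ⟨ρ, h3, h4, h5⟩ := selfDual_of_NR hQ hN
    refine ⟨⟨ρ, h3, h4, notRaising_of h5⟩, fun hZ ρ' hρ' => ?_⟩
    obtain ⟨i, r, hr⟩ := retr_of_factor hl
    exact notRaising_of (P := ρ') (NR_all (noPh_of_retr hr (noPh_iff.1 hZ)) hQ hN hρ' hρ')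
  refine ⟨fun Z X f hf hZ => ?_, key⟩
  exact (key Z X 0 (by exact_mod_cast factor_of_dominant hf) hZ).1

end Pool.Agent.Results.MP_638e8a_ag.DominatedVarieties
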