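import Pool.Agent.Q82.CK.Gal

/-!
# Descent of Chow-Kunneth decompositions along finite Galois extensions

Let `L / k` be a finite Galois extension with group `G`, let `X` be a smooth projective variety over
`k` of dimension `d` and `Y = X_L`. The conjecture predicts Chow-Kunneth decompositions of `X` and of
`X_L`; but a Chow-Kunneth decomposition of `X_L` is not unique, need not be invariant under `G`, and the
averages of its projectors are not idempotent. We prove that the following are equivalent.

1. `X` has a Chow-Kunneth decomposition (over `k`).

2. `X_L` has a Chow-Kunneth decomposition which is invariant under `G`.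

3. `X_L` has a Chow-Kunneth decomposition such that all conjugates `g(π_i)`, `g` in `G`, lie in a
   finite-dimensional algebra of self-correspondences of degree zero of `X_L`.

4. There are self-correspondences `p_i` of `X_L`, not necessarily idempotent, acting on the cohomology as
   the projections onto `H^i(X_L)`, such that all conjugates `g(p_i)` lie in a finite-dimensional algebra
   of self-correspondences of degree zero of `X_L`.

No condition is imposed on the homologically trivial correspondences.

Varieties over `k` are those of a class `𝒱` of smooth projective geometrically irreducible varieties
closed under products, with Chow groups `C` and Weil cohomology `H` given by their formal properties; in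
the same way `𝒲`, `D`, `I` for `L`. The extension of scalars from `X × X` to `X_L × X_L`, the Galois
action, Galois descent for rational Chow groups and the compatibility with the cohomology enter through
the data `ExtData` and their properties `IsGaloisExt`.
-/

open CategoryTheory AlgebraicGeometry

set_option autoImplicit false

universe u v w

namespace Pool.Agent.Results.MP_638e8a_ag.GaloisDescent

open Pool.Agent.H914 Pool.Agent.W492.BB Pool.Agent.TH133 Pool.Agent.Q82.CK

/-- **Descent of Chow-Kunneth decompositions along finite Galois extensions.** -/
theorem result {k : Type u} [Field k] {𝒱 : VarClass k} {L : Type u} [Field L] {𝒲 : VarClass L}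
    (C : TheoryData.{u, v, 0} 𝒱 ℚ) [IsChowProj C] (D : TheoryData.{u, v, 0} 𝒲 ℚ) [IsChowProj D]
    {K : Type w} [Field K] (H : WeilTheoryData.{u, v, w} C K) [IsWeilProj H]
    (I : WeilTheoryData.{u, v, w} D K) [IsWeilProj I] (X : 𝒱.Obj) (Y : 𝒲.Obj)
    (G : Type) [Group G] [Finite G] (E : ExtData H I X Y G) (hE : E.IsGaloisExt) :
    List.TFAE [∃ π, IsCK H X π, E.HasInvariantCK, E.HasFiniteCK, E.HasFiniteLift] :=
  gal_tfae hE

end Pool.Agent.Results.MP_638e8a_ag.GaloisDescent
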